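import Mathlib

namespace Pool.Agent.Results.MP_843e59_an.RealCase

open Filter Topology Finset

theorem sort_block (a b : ℕ) (v : ℕ → ℝ) : ∃ s : ℕ → ℕ, (∀ j, a ≤ j → j < b → a ≤ s j ∧ s j < b) ∧
    (∀ i j, a ≤ i → i < b → a ≤ j → j < b → s i = s j → i = j) ∧
    ∀ j, a ≤ j → j + 1 < b → v (s j) ≤ v (s (j + 1)) := by
  let σ := Tuple.sort fun i : Fin (b - a) => v (a + i)
  have hm := Tuple.monotone_sort fun i : Fin (b - a) => v (a + i)
  refine ⟨fun j => if h : j - a < b - a then a + σ ⟨j - a, h⟩ else j, fun j h1 h2 => ?_,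
    fun i j h1 h2 h3 h4 e => ?_, fun j h1 h2 => ?_⟩
  · simp only [dif_pos (show j - a < b - a by omega)]
    have := (σ ⟨j - a, by omega⟩).2
    omega
  · simp only [dif_pos (show j - a < b - a by omega), dif_pos (show i - a < b - a by omega),
      add_right_inj, Fin.val_inj, σ.injective.eq_iff, Fin.mk.injEq] at e
    omega
  · simp only [dif_pos (show j - a < b - a by omega), dif_pos (show j + 1 - a < b - a by omega)]
    exact hm (show (⟨j - a, by omega⟩ : Fin (b - a)) ≤ ⟨j + 1 - a, by omega⟩ from by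
      rw [Fin.mk_le_mk]; omega)

theorem sum_perm {G : Type*} [AddCommMonoid G] (π : ℕ → ℕ) (hi : Function.Injective π) (N : ℕ)
    (h : ∀ j < N, π j < N) (F : ℕ → G) : ∑ j ∈ range N, F (π j) = ∑ i ∈ range N, F i := by
  have e : (range N).image π = range N := by
    refine eq_of_subset_of_card_le (fun i hi' => ?_) (by rw [card_image_of_injective _ hi])
    obtain ⟨j, hj, rfl⟩ := mem_image.1 hi'
    exact mem_range.2 (h j (mem_range.1 hj))
  rw [← sum_image (s := range N) (g := π) (f := F) fun _ _ _ _ q => hi q, e]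

theorem variation (μ : ℕ → ℝ) (A B n : ℕ) (K : ℝ) (hAB : A < B) (hK : ∀ j, |μ j| ≤ K)
    (h1 : ∑ j ∈ range A, |μ j - 1| ≤ 1) (h2 : ∀ j, A ≤ j → j + 1 < B → μ j ≤ μ (j + 1))
    (h3 : ∀ j, B ≤ j → μ j = 0) : ∑ m ∈ range n, |μ m - μ (m + 1)| ≤ 2 + 6 * K := by
  have K0 : 0 ≤ K := (abs_nonneg _).trans (hK 0)
  let e : ℕ → ℝ := fun j => if j < A then |μ j - 1| else 0
  have e0 : ∀ j, 0 ≤ e j := fun j => by simp only [e]; split_ifs <;> positivity
  let S : ℕ → ℝ := fun m => ∑ j ∈ range m, e j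
  have S0 : ∀ m, 0 ≤ S m := fun m => sum_nonneg fun j _ => e0 j
  have S1 : ∀ m, S m ≤ 1 := by
    intro m
    refine le_trans ?_ h1
    simp only [S, e]
    rw [← sum_filter]
    exact sum_le_sum_of_subset_of_nonneg (fun j hj => mem_range.2 (mem_filter.1 hj).2)
      fun _ _ _ => abs_nonneg _
  let g : ℕ → ℝ := fun m => if m < A then 0 else if m < B then 3 * K + μ m else 6 * K
  have st : ∀ m, |μ m - μ (m + 1)| ≤ (S (m + 1) + S (m + 1 + 1) + g (m + 1)) -
      (S m + S (m + 1) + g m) := by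
    intro m
    have a1 : S (m + 1) = S m + e m := sum_range_succ _ _
    have a2 : S (m + 1 + 1) = S (m + 1) + e (m + 1) := sum_range_succ _ _
    have b1 := abs_le.1 (hK m)
    have b2 := abs_le.1 (hK (m + 1))
    have c1 := e0 m
    have c2 := e0 (m + 1)
    rw [a2, a1, abs_le]
    by_cases q1 : m + 1 < A
    · simp only [g, e, if_pos q1, if_pos (show m < A by omega)]
      have := abs_le.1 (le_refl |μ m - 1|)
      have := abs_le.1 (le_refl |μ (m + 1) - 1|)
      constructor <;> linarith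
    by_cases q2 : m < A
    · simp only [g, if_neg q1, if_pos q2, if_pos (show m + 1 < B by omega)]
      constructor <;> linarith
    by_cases q3 : m + 1 < B
    · simp only [g, if_neg q1, if_neg q2, if_pos q3, if_pos (show m < B by omega)]
      have := h2 m (by omega) q3
      constructor <;> linarith
    by_cases q4 : m < B
    · simp only [g, if_neg q1, if_neg q2, if_neg q3, if_pos q4]
      constructor <;> linarith
    · simp only [g, if_neg q1, if_neg q2, if_neg q3, if_neg q4]
      rw [h3 m (by omega), h3 (m + 1) (by omega)]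
      constructor <;> linarith
  refine (sum_le_sum fun m _ => st m).trans ?_
  rw [sum_range_sub (fun m => S m + S (m + 1) + g m)]
  have g0 : ∀ m, 0 ≤ g m ∧ g m ≤ 6 * K := by
    intro m
    have b1 := abs_le.1 (hK m)
    simp only [g]
    split_ifs <;> constructor <;> linarith
  linarith [S0 0, S0 (0 + 1), S1 n, S1 (n + 1), (g0 0).1, (g0 n).2]

theorem abel {E : Type*} [AddCommGroup E] [Module ℝ E] (μ : ℕ → ℝ) (z : ℕ → E) (n : ℕ) :
    ∑ m ∈ range n, (μ m - μ (m + 1)) • ∑ i ∈ range (m + 1), z i =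
      ∑ i ∈ range n, (μ i - μ n) • z i := by
  induction n with
  | zero => simp
  | succ n ih =>
    rw [sum_range_succ, ih, smul_sum, sum_range_succ, sum_range_succ, ← add_assoc,
      ← sum_add_distrib]
    congr 1
    refine sum_congr rfl fun i _ => ?_
    rw [← add_smul]
    congr 1
    ring

theorem result :
  ∀ (E : Type) [NormedAddCommGroup E] [NormedSpace ℝ E] [CompleteSpace E],
    (∃ (x : ℕ → E) (f : ℕ → E →L[ℝ] ℝ),
      (∀ i j : ℕ, f i (x j) = if i = j then (1 : ℝ) else 0) ∧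
      Dense ((Submodule.span ℝ (Set.range x) : Submodule ℝ E) : Set E) ∧
      (∀ y : E, (∀ n : ℕ, f n y = 0) → y = 0) ∧
      ∃ l : ℕ → ℕ → ℝ, ∀ y : E,
        Tendsto (fun n : ℕ => ∑ i ∈ Finset.range (n + 1), l n i • f i y • x i) atTop (𝓝 y)) →
    ∃ (x : ℕ → E) (f : ℕ → E →L[ℝ] ℝ) (t : ℕ → ℕ → ℝ),
      (∀ i j : ℕ, f i (x j) = if i = j then (1 : ℝ) else 0) ∧
      (∀ n m : ℕ, n < m → t n m = 0) ∧
      (∃ C : ℝ, ∀ n : ℕ, ∑ m ∈ Finset.range (n + 1), ‖t n m‖ ≤ C) ∧
      (∀ m : ℕ, Tendsto (fun n : ℕ => t n m) atTop (𝓝 0)) ∧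
      Tendsto (fun n : ℕ => ∑ m ∈ Finset.range (n + 1), t n m) atTop (𝓝 1) ∧
      ∀ y : E, Tendsto (fun n : ℕ => ∑ m ∈ Finset.range (n + 1),
          t n m • ∑ i ∈ Finset.range (m + 1), f i y • x i) atTop (𝓝 y) := by
  rintro E _ _ _ ⟨x, f, hb, -, -, l, hl⟩
  let T : ℕ → E →L[ℝ] E := fun n => ∑ i ∈ range (n + 1), l n i • (f i).smulRight (x i)
  have hT : ∀ n y, T n y = ∑ i ∈ range (n + 1), l n i • f i y • x i := by
    intro n y
    simp [T]
  have hTx : ∀ n j, j ≤ n → T n (x j) = l n j • x j := by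
    intro n j hj
    rw [hT, sum_eq_single j]
    · simp [hb]
    · intro i _ hi
      simp [hb, hi]
    · intro h
      exact absurd (mem_range.2 (by omega)) h
  obtain ⟨K, hK⟩ := banach_steinhaus (g := T) fun y => by
    obtain ⟨C, hC⟩ := (hl y).norm.bddAbove_range
    exact ⟨C, fun n => by rw [hT]; exact hC ⟨n, rfl⟩⟩
  have K0 : 0 ≤ K := (norm_nonneg _).trans (hK 0)
  have lK : ∀ n j, j ≤ n → |l n j| ≤ K := by
    intro n j hj
    have x0 : x j ≠ 0 := fun h => by simpa [h] using hb j j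
    have h1 := (T n).le_of_opNorm_le (hK n) (x j)
    rw [hTx n j hj, norm_smul, Real.norm_eq_abs] at h1
    exact le_of_mul_le_mul_right h1 (norm_pos_iff.2 x0)
  have l1 : ∀ j, Tendsto (fun n => l n j) atTop (𝓝 1) := by
    intro j
    have h1 := ((f j).continuous.tendsto _).comp (hl (x j))
    rw [hb, if_pos rfl] at h1
    refine h1.congr' ?_
    filter_upwards [eventually_ge_atTop j] with n hn
    simp only [Function.comp]
    rw [← hT, hTx n j hn]
    simp [hb]
  have nx : ∀ a : ℕ, ∃ b, a < b ∧ ∑ i ∈ range a, |l (b - 1) i - 1| ≤ 1 := by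
    intro a
    have h1 : Tendsto (fun n => ∑ i ∈ range a, |l n i - 1|) atTop (𝓝 (∑ i ∈ range a, |(1 : ℝ) - 1|)) :=
      tendsto_finsetSum _ fun i _ => ((l1 i).sub_const 1).abs
    simp only [sub_self, abs_zero, sum_const_zero] at h1
    obtain ⟨n, h2, h3⟩ := ((h1.eventually (ge_mem_nhds one_pos)).and (eventually_ge_atTop a)).exists
    exact ⟨n + 1, by omega, by simpa using h2⟩
  choose g g1 g2 using nx
  let M : ℕ → ℕ := fun k => g^[k] 0
  have Ms : ∀ k, M (k + 1) = g (M k) := fun k => Function.iterate_succ_apply' _ _ _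
  have Mm : StrictMono M := strictMono_nat_of_lt_succ fun k => by rw [Ms]; exact g1 _
  have ex : ∀ j, ∃ k, M k ≤ j ∧ j < M (k + 1) := by
    intro j
    have h : ∃ k, j < M (k + 1) := ⟨j, lt_of_lt_of_le (Nat.lt_succ_self j) (Mm.id_le _)⟩
    refine ⟨Nat.find h, ?_, Nat.find_spec h⟩
    rcases e : Nat.find h with _ | k
    · exact Nat.zero_le _
    · exact not_lt.1 (Nat.find_min h (show k < Nat.find h by omega))
  choose c c1 c2 using ex
  have cu : ∀ j k, M k ≤ j → j < M (k + 1) → c j = k := by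
    intro j k h1 h2
    have a1 := Mm.lt_iff_lt.1 (lt_of_le_of_lt h1 (c2 j))
    have a2 := Mm.lt_iff_lt.1 (lt_of_le_of_lt (c1 j) h2)
    omega
  choose s s1 s2 s3 using fun k => sort_block (M k) (M (k + 1)) (l (M (k + 1) - 1))
  let π : ℕ → ℕ := fun j => s (c j) j
  have π1 : ∀ j, M (c j) ≤ π j ∧ π j < M (c j + 1) := fun j => s1 _ _ (c1 j) (c2 j)
  have πi : Function.Injective π := by
    intro i j e
    have h : c i = c j := by
      rw [← cu _ _ (π1 i).1 (π1 i).2, e, cu _ _ (π1 j).1 (π1 j).2]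
    refine s2 (c j) i j (h ▸ c1 i) (h ▸ c2 i) (c1 j) (c2 j) ?_
    simpa only [π, h] using e
  have πl : ∀ k, ∀ j < M k, π j < M k := by
    intro k j hj
    have := Mm.lt_iff_lt.1 (lt_of_le_of_lt (c1 j) hj)
    exact lt_of_lt_of_le (π1 j).2 (Mm.monotone this)
  let μ : ℕ → ℕ → ℝ := fun n j => if j < M (c (n + 1)) then l (M (c (n + 1)) - 1) (π j) else 0
  have μ0 : ∀ n j, n < j → μ n j = 0 := fun n j h => if_neg (by have := c1 (n + 1); omega)
  have ct : Tendsto (fun n => M (c (n + 1)) - 1) atTop atTop := by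
    refine tendsto_atTop.2 fun b => ?_
    filter_upwards [eventually_ge_atTop (M (b + 1))] with n hn
    have h1 := Mm.lt_iff_lt.1 (lt_of_le_of_lt (show M (b + 1) ≤ n + 1 by omega) (c2 (n + 1)))
    have h2 : c (n + 1) ≤ M (c (n + 1)) := Mm.id_le _
    omega
  have μ1 : ∀ j, Tendsto (fun n => μ n j) atTop (𝓝 1) := by
    intro j
    refine ((l1 (π j)).comp ct).congr' ?_
    filter_upwards [ct.eventually (eventually_ge_atTop (j + 1))] with n hn
    simp only [μ, Function.comp]
    rw [if_pos (by omega)]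
  refine ⟨fun j => x (π j), fun j => f (π j), fun n m => μ n m - μ n (m + 1), fun i j => ?_,
    fun n m h => ?_, ⟨2 + 6 * K, fun n => ?_⟩, fun m => ?_, ?_, fun y => ?_⟩
  · simp only [hb, πi.eq_iff]
  · simp only [μ0 n m h, μ0 n (m + 1) (by omega), sub_self]
  · simp only [Real.norm_eq_abs]
    rcases e : c (n + 1) with _ | k
    · have : ∀ j, μ n j = 0 := fun j => if_neg (by rw [e]; exact Nat.not_lt_zero j)
      simp only [this, sub_self, abs_zero, sum_const_zero]
      positivity
    · have lt : M k < M (k + 1) := Mm (Nat.lt_succ_self k)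
      refine variation (μ n) (M k) (M (k + 1)) _ K lt (fun j => ?_) ?_ (fun j h1 h2 => ?_)
        (fun j h => ?_)
      · simp only [μ]
        split_ifs with q
        · exact lK _ _ (by have := πl _ _ q; omega)
        · simpa using K0
      · have h1 := g2 (M k)
        rw [← Ms, ← sum_perm π πi _ (πl k)] at h1
        refine le_trans (le_of_eq (sum_congr rfl fun j hj => ?_)) h1
        have := mem_range.1 hj
        simp only [μ, e]
        rw [if_pos (by omega)]
      · simp only [μ, e, π]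
        rw [if_pos (by omega), if_pos h2, cu j k h1 (by omega), cu (j + 1) k (by omega) h2]
        exact s3 k j h1 h2
      · simp only [μ, e]
        rw [if_neg (by omega)]
  · simpa using (μ1 m).sub (μ1 (m + 1))
  · refine (μ1 0).congr fun n => ?_
    rw [sum_range_sub', μ0 n (n + 1) (by omega), sub_zero]
  · refine ((hl y).comp ct).congr' ?_
    filter_upwards [ct.eventually (eventually_ge_atTop 1)] with n hn
    simp only [Function.comp]
    rw [abel (μ n) (fun i => f (π i) y • x (π i)), μ0 n (n + 1) (by omega),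
      show M (c (n + 1)) - 1 + 1 = M (c (n + 1)) by omega, ← sum_perm π πi _ (πl _)]
    refine Eq.trans ?_ (sum_subset (s₁ := range (M (c (n + 1))))
      (range_subset_range.2 (c1 (n + 1))) fun j _ hj => ?_)
    · refine sum_congr rfl fun j hj => ?_
      simp only [μ, sub_zero]
      rw [if_pos (mem_range.1 hj)]
    · simp only [μ, sub_zero]
      rw [if_neg (fun h => hj (mem_range.2 h)), zero_smul]

end Pool.Agent.Results.MP_843e59_an.RealCase
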